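import Pool.Agent.helper3.T5.SpecA

/-! Row t5:ADFA (MP_16912e_nt): facts from the data -/

set_option autoImplicit false

namespace Pool.Agent.T5

open Finset NumberField Pool.Agent.helper3.FT Pool.Agent.helper47.RA

theorem ADFA : ADFA_stmt := by
  intro K _ _ Q hD a α γ d t hdat
  obtain ⟨⟨F, hFa, hFβ, hFγ, hFZ, hFΛ, -, -, -, -⟩, htt, hd1, hn, hk, hz, hl, -⟩ := hdat
  subst hFa hFβ hFγ
  have hna := F.na
  have hZ0 := F.hZ
  have hΛ0 := F.hΛ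
  have haN : (Ideal.absNorm F.a : ℤ) = F.Z := by rw [hFZ, hz]
  have haN0 : Ideal.absNorm F.a ≠ 0 := by
    intro h
    rw [h] at haN
    exact hZ0 (by simpa using haN.symm)
  have hZpos : 0 < t.2.2.2 := by
    rw [hz]
    exact_mod_cast Nat.pos_of_ne_zero haN0
  have hΛpos : 0 < lam t := by
    have h1 : 0 ≤ lam t := by rw [hl]; exact Int.natCast_nonneg _
    have h2 : lam t ≠ 0 := by rw [← hFΛ]; exact hΛ0
    omega
  have ha0 : F.a ≠ ⊥ := by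
    intro h
    rw [h, Ideal.absNorm_bot] at haN0
    exact haN0 rfl
  have hle : Ideal.span {F.β} ≤ F.a ^ 2 := by
    rw [F.iβ]
    exact Ideal.mul_le_left
  refine ⟨ha0, F.pa, ⟨F.α, F.iα.symm⟩, hle (Ideal.mem_span_singleton_self _), ?_, ?_, ?_, hZpos, hΛpos, ?_, ?_⟩
  · intro p hp hdvd
    rw [F.iβ, mul_comm (Ideal.span {(p : 𝓞 K)}) (F.a ^ 2)] at hdvd
    exact F.pL p hp ((mul_dvd_mul_iff_left (pow_ne_zero 2 ha0)).1 hdvd)
  · refine ⟨F.α, F.iα.symm, ?_⟩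
    have hcast : (Ideal.absNorm F.a : 𝓞 K) = (F.Z : 𝓞 K) := by
      rw [← haN]
      norm_cast
    rw [hcast]
    have hΛ' : (F.Λ : 𝓞 K) ≠ 0 := by exact_mod_cast hΛ0
    have h1 := F.e3
    have h2 := F.nγ
    have h3 : (F.Λ : 𝓞 K) ^ 2 * (F.γ * F.α) = (F.Λ : 𝓞 K) ^ 2 * (F.Z * F.β ^ 2) := by
      calc (F.Λ : 𝓞 K) ^ 2 * (F.γ * F.α) = F.γ * (F.Λ ^ 2 * F.α) := by ring
        _ = F.γ * (F.β ^ 2 * Q.cj F.γ) := by rw [← h1]
        _ = F.β ^ 2 * (F.γ * Q.cj F.γ) := by ring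
        _ = F.β ^ 2 * (F.Z * F.Λ ^ 2) := by rw [h2]
        _ = (F.Λ : 𝓞 K) ^ 2 * (F.Z * F.β ^ 2) := by ring
    exact mul_left_cancel₀ (pow_ne_zero 2 hΛ') h3
  · have h1 := Q.hnorm F.β
    have h2 : (Q.v₁ F.β) ^ 2 = Q.v₁ F.β * Q.v₂ F.β := by rw [← Q.himag hD F.β, sq]
    rw [h2, ← h1, F.iβ, map_mul, map_pow]
    have h3 : (Ideal.absNorm F.L : ℤ) = lam t := by
      rw [F.nL, hFΛ, abs_of_pos hΛpos]
    have h4 : (Ideal.absNorm F.L : ℝ) = (lam t : ℝ) := by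
      rw [← h3]
      norm_cast
    push_cast
    rw [h4]
  · rw [hn]
    have := htt.n1
    positivity
  · rw [hk]
    have := htt.k1
    positivity

end Pool.Agent.T5
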