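import Pool.Agent.helper3.T5.SpecA

/-! Row t5:ADIN (MP_16912e_nt): everything is determined by the tuple, and the tuple by the ideal data -/

set_option autoImplicit false

namespace Pool.Agent.T5

open Finset NumberField Pool.Agent.helper3.FT Pool.Agent.helper47.RA

theorem ADIN_sq {D : ℤ} (hD : D ≠ 0) (d d' : ℕ) (h : D * (d : ℤ) ^ 2 = D * (d' : ℤ) ^ 2) : d = d' := by
  have h1 : (d : ℤ) ^ 2 = (d' : ℤ) ^ 2 := mul_left_cancel₀ hD h
  have h2 : d ^ 2 = d' ^ 2 := by exact_mod_cast h1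
  exact Nat.pow_left_injective (n := 2) two_ne_zero h2

theorem ADIN_ne {D : ℤ} (hD : IsFund D) : D ≠ 0 := by
  intro h
  have := hD.not_sq 0
  rw [h] at this
  simp at this

theorem ADIN_gcd (d d' n k n' k' : ℕ) (hco : Nat.Coprime n k) (hco' : Nat.Coprime n' k')
    (h1 : d * n = d' * n') (h2 : d * k = d' * k') : d = d' := by
  have e1 : Nat.gcd (d * n) (d * k) = d := by rw [Nat.gcd_mul_left, hco.gcd_eq_one, mul_one]
  have e2 : Nat.gcd (d' * n') (d' * k') = d' := by rw [Nat.gcd_mul_left, hco'.gcd_eq_one, mul_one]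
  rw [← e1, h1, h2, e2]

theorem ADIN_ext {K : Type} [Field K] [NumberField K] (Q : QF K) (x y : 𝓞 K)
    (h1 : x + Q.cj x = y + Q.cj y) (h2 : Q.Y x = Q.Y y) : x = y := by
  have e1 := Q.sub_cj x
  have e2 := Q.sub_cj y
  rw [h2, ← e2] at e1
  have h3 : (2 : 𝓞 K) * x = 2 * y := by linear_combination h1 + e1
  exact mul_left_cancel₀ two_ne_zero h3

theorem ADIN : ADIN_stmt := by
  refine ⟨?_, ?_, ?_⟩
  · intro D D' hD hD' d d' hd hd' h
    have h1 : D = D' := fund_unique D D' d d' hD hD' (by exact_mod_cast (by omega : d ≠ 0))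
      (by exact_mod_cast (by omega : d' ≠ 0)) h
    refine ⟨h1, ?_⟩
    rw [← h1] at h
    exact ADIN_sq (ADIN_ne hD) d d' h
  · intro K _ _ Q a a' α γ α' γ' d d' t h h'
    have hdd : d = d' := by
      have h1 := h.D
      have h2 := h'.D
      rw [h1] at h2
      exact ADIN_sq Q.D_ne_zero d d' h2
    subst hdd
    obtain ⟨⟨F, hFa, hFβ, hFγ, hFZ, hFΛ, hFu, hFv, -, -⟩, htt, hd1, hn, hk, -, -, -⟩ := h
    obtain ⟨⟨F', hFa', hFβ', hFγ', hFZ', hFΛ', hFu', hFv', -, -⟩, -, -, hn', hk', -, -, -⟩ := h'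
    subst hFa hFβ hFγ hFa' hFβ' hFγ'
    have hn1 := htt.n1
    have hk1 := htt.k1
    have hYγ : Q.Y F.γ ≠ 0 := by rw [hk]; positivity
    have hYβ : Q.Y F.β ≠ 0 := by rw [hn]; positivity
    have hYγ' : Q.Y F.γ = Q.Y F'.γ := by rw [hk, hk']
    have hYβ' : Q.Y F.β = Q.Y F'.β := by rw [hn, hn']
    have hZZ : F.Z = F'.Z := by rw [hFZ, hFZ']
    have hΛΛ : F.Λ = F'.Λ := by rw [hFΛ, hFΛ']
    have huu : Q.Y F.u = Q.Y F'.u := by rw [hFu, hFu']
    have hvv : Q.Y F.v = Q.Y F'.v := by rw [hFv, hFv']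
    have hβ : F.β = F'.β := by
      refine ADIN_ext Q _ _ ?_ hYβ'
      have t1 := F.trβ
      have t2 := F'.trβ
      rw [← hYγ', ← hZZ, ← hΛΛ, ← huu, ← hvv, ← t1] at t2
      have hc : (Q.Y F.γ : 𝓞 K) ≠ 0 := by exact_mod_cast hYγ
      exact (mul_left_cancel₀ hc t2).symm
    have hγ : F.γ = F'.γ := by
      refine ADIN_ext Q _ _ ?_ hYγ'
      have t1 := F.trγ
      have t2 := F'.trγ
      rw [← hYβ', ← hZZ, ← hΛΛ, ← huu, ← hvv, ← t1] at t2
      have hc : (Q.Y F.β : 𝓞 K) ≠ 0 := by exact_mod_cast hYβ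
      exact (mul_left_cancel₀ hc t2).symm
    have hα : F.α = F'.α := by
      have e1 := F.e3
      have e2 := F'.e3
      rw [← hβ, ← hγ, ← hΛΛ, e1] at e2
      have hc : (F.Λ : 𝓞 K) ≠ 0 := by exact_mod_cast F.hΛ
      exact mul_left_cancel₀ (pow_ne_zero 2 hc) e2
    refine ⟨rfl, ?_, hβ, hγ⟩
    refine pow_inj F.a F'.a 5 (by norm_num) ?_
    rw [← F.iα, ← F'.iα, hα]
  · intro K _ _ Q a α γ d d' t t' h h'
    obtain ⟨⟨F, hFa, hFβ, hFγ, hFZ, hFΛ, hFu, hFv, -, -⟩, htt, hd1, hn, hk, hz, hl, -⟩ := h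
    obtain ⟨⟨F', hFa', hFβ', hFγ', hFZ', hFΛ', hFu', hFv', -, -⟩, htt', hd1', hn', hk', hz', hl', -⟩ := h'
    have h1 : d * t.1.1 = d' * t'.1.1 := by
      rw [hn] at hn'
      exact_mod_cast hn'
    have h2 : d * t.1.2 = d' * t'.1.2 := by
      rw [hk] at hk'
      exact_mod_cast hk'
    have hdd : d = d' := ADIN_gcd d d' _ _ _ _ htt.co htt'.co h1 h2
    subst hdd
    have hd0 : 0 < d := by omega
    have e1 : t.1.1 = t'.1.1 := Nat.eq_of_mul_eq_mul_left hd0 h1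
    have e2 : t.1.2 = t'.1.2 := Nat.eq_of_mul_eq_mul_left hd0 h2
    have e3 : t.2.2.2 = t'.2.2.2 := by rw [hz, hz']
    have hΛΛ : F.Λ = F'.Λ := by rw [hFΛ, hFΛ', hl, hl']
    have hZZ : F.Z = F'.Z := by rw [hFZ, hFZ', e3]
    have hββ : F.β = F'.β := by rw [hFβ, hFβ']
    have hγγ : F.γ = F'.γ := by rw [hFγ, hFγ']
    have hu : F.u = F'.u := by
      have g1 := F.e1
      have g2 := F'.e1
      rw [← hββ, ← hγγ, ← hΛΛ, g1] at g2
      have hc : (F.Λ : 𝓞 K) ≠ 0 := by exact_mod_cast F.hΛ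
      exact mul_left_cancel₀ hc g2
    have hv : F.v = F'.v := by
      have g1 := F.e2
      have g2 := F'.e2
      rw [← hββ, ← hγγ, ← hZZ, g1] at g2
      have hc : (F.Z : 𝓞 K) ≠ 0 := by exact_mod_cast F.hZ
      exact mul_left_cancel₀ hc g2
    have hdz : (d : ℤ) ≠ 0 := by exact_mod_cast hd0.ne'
    have e4 : t.2.1 = t'.2.1 := by
      rw [hu, hFu'] at hFu
      exact (mul_left_cancel₀ hdz hFu).symm
    have e5 : t.2.2.1 = t'.2.2.1 := by
      rw [hv, hFv'] at hFv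
      exact (mul_left_cancel₀ hdz hFv).symm
    refine ⟨rfl, ?_⟩
    obtain ⟨⟨n, k⟩, m, g, Z⟩ := t
    obtain ⟨⟨n', k'⟩, m', g', Z'⟩ := t'
    simp only at e1 e2 e3 e4 e5
    rw [e1, e2, e3, e4, e5]

end Pool.Agent.T5
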