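import Pool.Agent.helper3.T5.SpecA

/-! Row t5:AIST (MP_16912e_nt): arithmetic of a coprime tuple -/

set_option autoImplicit false

namespace Pool.Agent.T5

open Finset NumberField Pool.Agent.helper3.FT Pool.Agent.helper47.RA

theorem AIST_mod4 (E n A B : ℤ) (hn : n % 2 = 1) (h : E * n ^ 2 = A ^ 2 - 4 * B) : E % 4 = 0 ∨ E % 4 = 1 := by
  obtain ⟨i, hi⟩ : ∃ i, n = 2 * i + 1 := ⟨n / 2, by omega⟩
  obtain ⟨j, hj⟩ : ∃ j, A = 2 * j ∨ A = 2 * j + 1 := ⟨A / 2, by omega⟩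
  have h1 : E = A ^ 2 - 4 * B - 4 * (E * (i ^ 2 + i)) := by
    rw [← h, hi]; ring
  rcases hj with hj | hj
  · left
    have h2 : E = 4 * (j ^ 2 - B - E * (i ^ 2 + i)) := by
      rw [hj] at h1
      linarith
    omega
  · right
    have h2 : E = 4 * (j ^ 2 + j - B - E * (i ^ 2 + i)) + 1 := by
      rw [hj] at h1
      linarith
    omega

theorem AIST_core (n k m g Z : ℤ) (hn : 0 < n) (hk : 0 < k) (hco : IsCoprime n k)
    (c1 : n ^ 3 ∣ Z * k ^ 4 + m * g * k ^ 2 - g ^ 2 * n ^ 2) (c2 : k ∣ m ^ 2 - Z * n ^ 2) :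
    ∃ Λ R R' A C E : ℤ, Λ * n ^ 2 = m * g + Z * k ^ 2 ∧ k * R = Z * n ^ 2 - m ^ 2 ∧ n * R' = g ^ 2 - Λ * k ^ 2 ∧
      k * A = Z * g - Λ * m ∧ n * C = Z * g + Λ * m ∧ n ^ 2 * A = g * R - m * k * Z ∧
      E * n ^ 2 = A ^ 2 - 4 * Z ^ 2 * Λ ∧ E * k ^ 2 = C ^ 2 - 4 * Z * Λ ^ 2 := by
  have hn0 : n ≠ 0 := hn.ne'
  have hk0 : k ≠ 0 := hk.ne'
  have h1 : n ^ 2 ∣ m * g + Z * k ^ 2 := by
    have h2 : n ^ 2 ∣ k ^ 2 * (m * g + Z * k ^ 2) := by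
      have h3 : n ^ 2 ∣ Z * k ^ 4 + m * g * k ^ 2 - g ^ 2 * n ^ 2 := (pow_dvd_pow n (by norm_num)).trans c1
      have h4 : k ^ 2 * (m * g + Z * k ^ 2) = (Z * k ^ 4 + m * g * k ^ 2 - g ^ 2 * n ^ 2) + g ^ 2 * n ^ 2 := by ring
      rw [h4]
      exact dvd_add h3 (Dvd.intro_left _ rfl)
    exact (hco.pow (m := 2) (n := 2)).dvd_of_dvd_mul_left h2
  obtain ⟨Λ, hΛ⟩ := h1
  have hΛ' : Λ * n ^ 2 = m * g + Z * k ^ 2 := by rw [hΛ]; ring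
  obtain ⟨r, hr⟩ := c2
  obtain ⟨R, hR⟩ : ∃ R, R = -r := ⟨_, rfl⟩
  have hR' : k * R = Z * n ^ 2 - m ^ 2 := by rw [hR]; linarith
  have h5 : n ∣ g ^ 2 - Λ * k ^ 2 := by
    have h6 : n ^ 2 * n ∣ n ^ 2 * (g ^ 2 - Λ * k ^ 2) := by
      obtain ⟨q, hq⟩ := c1
      refine ⟨-q, ?_⟩
      have h7 : n ^ 2 * (g ^ 2 - Λ * k ^ 2) = g ^ 2 * n ^ 2 - k ^ 2 * (Λ * n ^ 2) := by ring
      rw [h7, hΛ']
      have h8 : n ^ 2 * n * -q = -(n ^ 3 * q) := by ring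
      rw [h8, ← hq]
      ring
    exact (mul_dvd_mul_iff_left (pow_ne_zero 2 hn0)).1 h6
  obtain ⟨R', hRp⟩ := h5
  have h9 : n ∣ Z * g + Λ * m := by
    have h10 : n ∣ k ^ 2 * (Z * g + Λ * m) := by
      refine ⟨g * Λ * n - m * R', ?_⟩
      have h11 : k ^ 2 * (Z * g + Λ * m) = g * (m * g + Z * k ^ 2) - m * (g ^ 2 - Λ * k ^ 2) := by ring
      rw [h11, ← hΛ', hRp]
      ring
    exact (hco.pow_right (n := 2)).dvd_of_dvd_mul_left h10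
  obtain ⟨C, hC⟩ := h9
  have h12 : k ∣ Z * g - Λ * m := by
    have h13 : k ∣ n ^ 2 * (Z * g - Λ * m) := by
      refine ⟨g * R - m * k * Z, ?_⟩
      have h14 : n ^ 2 * (Z * g - Λ * m) = g * (Z * n ^ 2 - m ^ 2) + m * (m * g - Λ * n ^ 2) := by ring
      rw [h14, ← hR', hΛ']
      ring
    exact (hco.symm.pow_right (n := 2)).dvd_of_dvd_mul_left h13
  obtain ⟨A, hA⟩ := h12
  have h15 : n ^ 2 * A = g * R - m * k * Z := by
    have h16 : k * (n ^ 2 * A) = k * (g * R - m * k * Z) := by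
      have h17 : k * (n ^ 2 * A) = n ^ 2 * (Z * g - Λ * m) := by rw [hA]; ring
      rw [h17]
      have h14 : n ^ 2 * (Z * g - Λ * m) = g * (Z * n ^ 2 - m ^ 2) + m * (m * g - Λ * n ^ 2) := by ring
      rw [h14, ← hR', hΛ']
      ring
    exact mul_left_cancel₀ hk0 h16
  have h18 : k ^ 2 * (A ^ 2 - 4 * Z ^ 2 * Λ) = n ^ 2 * (C ^ 2 - 4 * Z * Λ ^ 2) := by
    have h19 : (k * A) ^ 2 = (n * C) ^ 2 - 4 * Z * Λ * (Λ * n ^ 2 - Z * k ^ 2) := by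
      rw [← hA, ← hC, hΛ']
      ring
    linarith [h19]
  have h20 : n ^ 2 ∣ A ^ 2 - 4 * Z ^ 2 * Λ :=
    (hco.pow (m := 2) (n := 2)).dvd_of_dvd_mul_left ⟨_, h18⟩
  obtain ⟨E, hE⟩ := h20
  refine ⟨Λ, R, R', A, C, E, hΛ', hR', hRp.symm, hA.symm, hC.symm, h15, by rw [hE]; ring, ?_⟩
  rw [hE] at h18
  have h21 : n ^ 2 * (E * k ^ 2) = n ^ 2 * (C ^ 2 - 4 * Z * Λ ^ 2) := by
    rw [← h18]; ring
  exact mul_left_cancel₀ (pow_ne_zero 2 hn0) h21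

theorem AIST : AIST_stmt := by
  rintro ⟨⟨n, k⟩, m, g, Z⟩ ⟨n1, k1, co, c1, c2⟩
  simp only at n1 k1 co c1 c2
  have hn : (0 : ℤ) < n := by exact_mod_cast n1
  have hk : (0 : ℤ) < k := by exact_mod_cast k1
  have hco : IsCoprime (n : ℤ) (k : ℤ) := Nat.isCoprime_iff_coprime.2 co
  obtain ⟨Λ, R, R', A, C, E, h1, h2, h3, h4, h5, h6, h7, h8⟩ := AIST_core n k m g Z hn hk hco c1 c2
  have hlam : lam ((n, k), (m, g, Z)) = Λ := by
    unfold lam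
    simp only
    rw [← h1]
    exact Int.mul_ediv_cancel _ (pow_ne_zero 2 hn.ne')
  have hRR : RR ((n, k), (m, g, Z)) = R := by
    unfold RR
    simp only
    rw [← h2]
    exact Int.mul_ediv_cancel_left _ hk.ne'
  have hRR' : RR' ((n, k), (m, g, Z)) = R' := by
    unfold RR'
    rw [hlam]
    simp only
    rw [← h3]
    exact Int.mul_ediv_cancel_left _ hn.ne'
  have h9 : (Z * g - Λ * m) ^ 2 - 4 * Z ^ 2 * Λ * (k : ℤ) ^ 2 = E * ((n : ℤ) * k) ^ 2 := by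
    rw [← h4]
    have : E * ((n : ℤ) * k) ^ 2 = (E * (n : ℤ) ^ 2) * (k : ℤ) ^ 2 := by ring
    rw [this, h7]
    ring
  have hdis : dis ((n, k), (m, g, Z)) = E := by
    unfold dis
    rw [hlam]
    simp only
    rw [h9]
    exact Int.mul_ediv_cancel _ (pow_ne_zero 2 (mul_ne_zero hn.ne' hk.ne'))
  rw [hlam, hRR, hRR', hdis]
  simp only
  refine ⟨h1, h2, h3, ⟨A, C, h4, h5, h6, h7, h8⟩, h9.symm, ?_⟩
  rcases Nat.even_or_odd n with he | ho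
  · have hk2 : (k : ℤ) % 2 = 1 := by
      rcases Nat.even_or_odd k with he2 | ho2
      · exfalso
        have := Nat.eq_one_of_dvd_coprimes co he.two_dvd he2.two_dvd
        omega
      · obtain ⟨i, hi⟩ := ho2
        omega
    exact AIST_mod4 E k C (Z * Λ ^ 2) hk2 (by rw [h8]; ring)
  · have hn2 : (n : ℤ) % 2 = 1 := by
      obtain ⟨i, hi⟩ := ho
      omega
    exact AIST_mod4 E n A (Z ^ 2 * Λ) hn2 (by rw [h7]; ring)

end Pool.Agent.T5
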