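import Pool.Agent.helper26.T5.SpecH

/-! Row t5:HID (MP_16912e_nt): the generator is a fifth power outside the conductor -/

set_option autoImplicit false

namespace Pool.Agent.helper26.T5

open Finset NumberField Pool.Agent.helper3.FT Pool.Agent.helper47.RA Pool.Agent.T5

/-- a prime ideal which contains a nonzero natural number contains a prime factor of it -/
theorem HID_prime {R : Type} [CommRing R] (P : Ideal R) (hP : P.IsPrime) :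
    ∀ c : ℕ, c ≠ 0 → (c : R) ∈ P → ∃ p : ℕ, p.Prime ∧ p ∣ c ∧ (p : R) ∈ P := by
  intro c
  induction c using Nat.strong_induction_on with
  | _ c ih =>
    intro hc hcP
    by_cases h1 : c = 1
    · exfalso
      rw [h1, Nat.cast_one] at hcP
      exact hP.ne_top ((Ideal.eq_top_iff_one P).2 hcP)
    · have hmf := Nat.minFac_prime h1
      obtain ⟨c', hc'⟩ := Nat.minFac_dvd c
      have hc0 : c' ≠ 0 := by
        rintro rfl
        exact hc (by rw [hc', mul_zero])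
      have hlt : c' < c := by
        have h2 : 2 ≤ c.minFac := hmf.two_le
        have h3 : 2 * c' ≤ c := by
          calc 2 * c' ≤ c.minFac * c' := Nat.mul_le_mul_right _ h2
            _ = c := hc'.symm
        omega
      have h4 : ((c.minFac : ℕ) : R) * ((c' : ℕ) : R) ∈ P := by
        rw [← Nat.cast_mul, ← hc']
        exact hcP
      rcases hP.mem_or_mem h4 with h5 | h5
      · exact ⟨c.minFac, hmf, Nat.minFac_dvd c, h5⟩
      · obtain ⟨p, hp1, hp2, hp3⟩ := ih c' hlt hc0 h5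
        exact ⟨p, hp1, hp2.trans ⟨c.minFac, by rw [mul_comm]; exact hc'⟩, hp3⟩

/-- integers in a proper ideal which contains the prime `p` are divisible by `p` -/
theorem HID_int {R : Type} [CommRing R] (P : Ideal R) (hP : P ≠ ⊤) (p : ℕ) (hp : p.Prime)
    (hpP : (p : R) ∈ P) (c : ℤ) (hc : (c : R) ∈ P) : (p : ℤ) ∣ c := by
  by_contra hn
  have h1 : IsCoprime (p : ℤ) c := (Int.isCoprime_iff_gcd_eq_one).2 (by
    have h2 := (Nat.prime_iff_prime_int.1 hp).coprime_iff_not_dvd.2 hn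
    exact Int.isCoprime_iff_gcd_eq_one.1 h2)
  obtain ⟨x, y, hxy⟩ := h1
  have h3 : (1 : R) = (x : R) * (p : R) + (y : R) * (c : R) := by
    have h4 := congrArg (fun z : ℤ => (z : R)) hxy
    simp only [Int.cast_add, Int.cast_mul, Int.cast_natCast, Int.cast_one] at h4
    exact h4.symm
  refine hP ((Ideal.eq_top_iff_one P).2 ?_)
  rw [h3]
  exact P.add_mem (P.mul_mem_left _ hpP) (P.mul_mem_left _ hc)

theorem HID_dvdint {K : Type} [Field K] [NumberField K] (Q : QF K) (q : ℕ) (hq : q.Prime) (c : ℤ) (h : (q : 𝓞 K) ∣ (c : 𝓞 K)) : (q : ℤ) ∣ c := by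
  have h1 : ((q : ℤ) : 𝓞 K) ∣ (c : 𝓞 K) + ((0 : ℤ) : 𝓞 K) * Q.ω := by
    rw [Int.cast_zero, zero_mul, add_zero, Int.cast_natCast]
    exact h
  have h2 : ((q : ℤ)) ≠ 0 := by exact_mod_cast hq.ne_zero
  exact ((Q.int_dvd_iff (q : ℤ) h2 c 0).1 h1).1

section

variable {K : Type} [Field K] [NumberField K] (Q : QF K)

theorem HID_nk {f n k q : ℕ} (hco : Nat.Coprime n k) (hq : q.Prime) (hqf : ¬ q ∣ f) (α γ : 𝓞 K)
    (hα : Q.Y α = f * n) (hγ : Q.Y γ = f * k) (h1 : (q : 𝓞 K) ∣ α) (h2 : (q : 𝓞 K) ∣ γ) : False := by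
  have h0 : ((q : ℤ)) ≠ 0 := by exact_mod_cast hq.ne_zero
  have h3 : (q : ℤ) ∣ Q.Y α := by
    refine Q.h96_dvd_Y (q : ℤ) h0 ?_
    rw [Int.cast_natCast]
    exact h1
  have h4 : (q : ℤ) ∣ Q.Y γ := by
    refine Q.h96_dvd_Y (q : ℤ) h0 ?_
    rw [Int.cast_natCast]
    exact h2
  rw [hα] at h3
  rw [hγ] at h4
  have h5 : q ∣ f * n := by exact_mod_cast h3
  have h6 : q ∣ f * k := by exact_mod_cast h4
  have h7 : q ∣ n := (hq.dvd_mul.1 h5).resolve_left hqf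
  have h8 : q ∣ k := (hq.dvd_mul.1 h6).resolve_left hqf
  have h9 : q ∣ Nat.gcd n k := Nat.dvd_gcd h7 h8
  rw [hco] at h9
  exact hq.one_lt.ne' (Nat.dvd_one.1 h9)

/-- (M) -/
theorem HID_M (hARAM : ARAM_stmt) (f n k : ℕ) (Z Λ : ℤ) (α γ : 𝓞 K)
    (hco : Nat.Coprime n k) (b g : ℕ) (hg : 1 ≤ g) (hZ : Z = (b : ℤ) * g)
    (hgf : Nat.Coprime g f) (hbf : ∀ p : ℕ, p.Prime → p ∣ b → p ∣ f)
    (nα : α * Q.cj α = (Z : 𝓞 K) ^ 2 * Λ) (nγ : γ * Q.cj γ = (Z : 𝓞 K) * (Λ : 𝓞 K) ^ 2)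
    (hα : Q.Y α = f * n) (hγ : Q.Y γ = f * k) (M : Ideal (𝓞 K))
    (m1 : α ∈ M) (m2 : Q.cj α ∈ M) (m3 : γ ∈ M) (m4 : Q.cj γ ∈ M) (m5 : (g : 𝓞 K) ∈ M)
    (m6 : (b : 𝓞 K) * (Λ : 𝓞 K) ^ 2 ∈ M) : M = ⊤ := by
  by_contra hM
  obtain ⟨P, hPmax, hMP⟩ := Ideal.exists_le_maximal M hM
  have hP : P.IsPrime := hPmax.isPrime
  have hg0 : g ≠ 0 := by omega
  obtain ⟨p, hp, hpg, hpP⟩ := HID_prime P hP g hg0 (hMP m5)
  have hpf : ¬ p ∣ f := by
    intro h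
    have h9 : p ∣ Nat.gcd g f := Nat.dvd_gcd hpg h
    rw [hgf] at h9
    exact hp.one_lt.ne' (Nat.dvd_one.1 h9)
  have hpb : ¬ p ∣ b := fun h => hpf (hbf p hp h)
  have hint := HID_int P hP.ne_top p hp hpP
  have hpp : Prime (p : ℤ) := Nat.prime_iff_prime_int.1 hp
  have hΛ : (p : ℤ) ∣ Λ := by
    have h1 : (p : ℤ) ∣ (b : ℤ) * Λ ^ 2 := by
      refine hint _ ?_
      push_cast
      exact hMP m6
    rcases hpp.dvd_or_dvd h1 with h2 | h2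
    · exact absurd (by exact_mod_cast h2) hpb
    · exact hpp.dvd_of_dvd_pow h2
  have hδ : (2 * Q.ω - Q.t : 𝓞 K) ∈ P := by
    have h1 : ((f * n : ℤ) : 𝓞 K) * (2 * Q.ω - Q.t) ∈ P := by
      rw [← hα, ← Q.sub_cj]
      exact P.sub_mem (hMP m1) (hMP m2)
    have h2 : ((f * k : ℤ) : 𝓞 K) * (2 * Q.ω - Q.t) ∈ P := by
      rw [← hγ, ← Q.sub_cj]
      exact P.sub_mem (hMP m3) (hMP m4)
    rcases hP.mem_or_mem h1 with h3 | h3
    · rcases hP.mem_or_mem h2 with h4 | h4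
      · exfalso
        have h5 := hint _ h3
        have h6 := hint _ h4
        have h7 : p ∣ f * n := by exact_mod_cast h5
        have h8 : p ∣ f * k := by exact_mod_cast h6
        have h9 : p ∣ Nat.gcd n k :=
          Nat.dvd_gcd ((hp.dvd_mul.1 h7).resolve_left hpf) ((hp.dvd_mul.1 h8).resolve_left hpf)
        rw [hco] at h9
        exact hp.one_lt.ne' (Nat.dvd_one.1 h9)
      · exact h4
    · exact h3
  have hD : (p : ℤ) ∣ Q.D := by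
    refine hint _ ?_
    rw [← Q.delta_sq, pow_two]
    exact P.mul_mem_left _ hδ
  have hpZ : (p : ℤ) ∣ Z := by
    rw [hZ]
    exact Dvd.dvd.mul_left (by exact_mod_cast hpg) _
  have h1 : (p : 𝓞 K) ∣ α := by
    refine hARAM K Q α (Z ^ 2 * Λ) p hp hD ?_ ?_
    · rw [nα]
      push_cast
      rfl
    · exact Dvd.dvd.mul_right (pow_dvd_pow_of_dvd hpZ 2) _
  have h2 : (p : 𝓞 K) ∣ γ := by
    refine hARAM K Q γ (Z * Λ ^ 2) p hp hD ?_ ?_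
    · rw [nγ]
      push_cast
      rfl
    · exact Dvd.dvd.mul_left (pow_dvd_pow_of_dvd hΛ 2) _
  exact HID_nk Q hco hp hpf α γ hα hγ h1 h2

/-- (a) -/
theorem HID_a (Z Λ : ℤ) (α γ v : 𝓞 K) (b g : ℕ) (hZ : Z = (b : ℤ) * g)
    (e2 : α * γ = (Z : 𝓞 K) * v)
    (nα : α * Q.cj α = (Z : 𝓞 K) ^ 2 * Λ) (nγ : γ * Q.cj γ = (Z : 𝓞 K) * (Λ : 𝓞 K) ^ 2)
    (hM : ∀ M : Ideal (𝓞 K), α ∈ M → Q.cj α ∈ M → γ ∈ M → Q.cj γ ∈ M → (g : 𝓞 K) ∈ M →
      (b : 𝓞 K) * (Λ : 𝓞 K) ^ 2 ∈ M → M = ⊤) (a : Ideal (𝓞 K))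
    (ha : a = Ideal.span {α} ⊔ Ideal.span {Q.cj γ} ⊔ Ideal.span {(g : 𝓞 K)}) :
    a * Q.bar a = Ideal.span {(g : 𝓞 K)} := by
  have hbar : Q.bar a = Ideal.span {Q.cj α} ⊔ Ideal.span {γ} ⊔ Ideal.span {(g : 𝓞 K)} := by
    rw [ha]
    unfold QF.bar
    rw [Ideal.map_sup, Ideal.map_sup, Ideal.map_span, Ideal.map_span, Ideal.map_span,
      Set.image_singleton, Set.image_singleton, Set.image_singleton, Q.cj_cj, map_natCast]
  have hZ' : (Z : 𝓞 K) = (g : 𝓞 K) * (b : 𝓞 K) := by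
    rw [hZ]
    push_cast
    ring
  have hZg : ∀ x : 𝓞 K, (Z : 𝓞 K) * x ∈ Ideal.span {(g : 𝓞 K)} := by
    intro x
    rw [hZ', mul_assoc]
    exact Ideal.mem_span_singleton.2 (dvd_mul_right _ _)
  have e2' : Q.cj α * Q.cj γ = (Z : 𝓞 K) * Q.cj v := by
    rw [← map_mul, e2, map_mul, Q.cj_int]
  have mα : α ∈ a := by
    rw [ha]
    exact Ideal.mem_sup_left (Ideal.mem_sup_left (Ideal.mem_span_singleton_self _))
  have mγ : Q.cj γ ∈ a := by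
    rw [ha]
    exact Ideal.mem_sup_left (Ideal.mem_sup_right (Ideal.mem_span_singleton_self _))
  have mg : (g : 𝓞 K) ∈ a := by
    rw [ha]
    exact Ideal.mem_sup_right (Ideal.mem_span_singleton_self _)
  have nα' : Q.cj α ∈ Q.bar a := by
    rw [hbar]
    exact Ideal.mem_sup_left (Ideal.mem_sup_left (Ideal.mem_span_singleton_self _))
  have nγ' : γ ∈ Q.bar a := by
    rw [hbar]
    exact Ideal.mem_sup_left (Ideal.mem_sup_right (Ideal.mem_span_singleton_self _))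
  have ng : (g : 𝓞 K) ∈ Q.bar a := by
    rw [hbar]
    exact Ideal.mem_sup_right (Ideal.mem_span_singleton_self _)
  apply le_antisymm
  · rw [hbar, ha]
    rw [Ideal.sup_mul, Ideal.sup_mul, Ideal.mul_sup, Ideal.mul_sup, Ideal.mul_sup, Ideal.mul_sup,
      Ideal.mul_sup, Ideal.mul_sup]
    simp only [Ideal.span_singleton_mul_span_singleton]
    refine sup_le (sup_le (sup_le (sup_le ?_ ?_) ?_) (sup_le (sup_le ?_ ?_) ?_))
      (sup_le (sup_le ?_ ?_) ?_) <;> rw [Ideal.span_singleton_le_iff_mem]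
    · rw [nα]
      have h := hZg ((Z : 𝓞 K) * Λ)
      have h2 : (Z : 𝓞 K) ^ 2 * Λ = (Z : 𝓞 K) * ((Z : 𝓞 K) * Λ) := by ring
      rw [h2]
      exact h
    · rw [e2]
      exact hZg _
    · exact Ideal.mem_span_singleton.2 (dvd_mul_left _ _)
    · rw [mul_comm, e2']
      exact hZg _
    · rw [mul_comm, nγ]
      exact hZg _
    · exact Ideal.mem_span_singleton.2 (dvd_mul_left _ _)
    · exact Ideal.mem_span_singleton.2 (dvd_mul_right _ _)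
    · exact Ideal.mem_span_singleton.2 (dvd_mul_right _ _)
    · exact Ideal.mem_span_singleton.2 (dvd_mul_right _ _)
  · have hT : Ideal.span {α} ⊔ Ideal.span {Q.cj α} ⊔ Ideal.span {γ} ⊔ Ideal.span {Q.cj γ} ⊔
        Ideal.span {(g : 𝓞 K)} ⊔ Ideal.span {(b : 𝓞 K) * (Λ : 𝓞 K) ^ 2} = ⊤ := by
      refine hM _ ?_ ?_ ?_ ?_ ?_ ?_
      · exact Ideal.mem_sup_left (Ideal.mem_sup_left (Ideal.mem_sup_left (Ideal.mem_sup_left
          (Ideal.mem_sup_left (Ideal.mem_span_singleton_self _)))))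
      · exact Ideal.mem_sup_left (Ideal.mem_sup_left (Ideal.mem_sup_left (Ideal.mem_sup_left
          (Ideal.mem_sup_right (Ideal.mem_span_singleton_self _)))))
      · exact Ideal.mem_sup_left (Ideal.mem_sup_left (Ideal.mem_sup_left
          (Ideal.mem_sup_right (Ideal.mem_span_singleton_self _))))
      · exact Ideal.mem_sup_left (Ideal.mem_sup_left
          (Ideal.mem_sup_right (Ideal.mem_span_singleton_self _)))
      · exact Ideal.mem_sup_left (Ideal.mem_sup_right (Ideal.mem_span_singleton_self _))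
      · exact Ideal.mem_sup_right (Ideal.mem_span_singleton_self _)
    have h1 : Ideal.span {(g : 𝓞 K)} = Ideal.span {(g : 𝓞 K)} * ⊤ := (Ideal.mul_top _).symm
    rw [h1, ← hT]
    rw [Ideal.mul_sup, Ideal.mul_sup, Ideal.mul_sup, Ideal.mul_sup, Ideal.mul_sup]
    simp only [Ideal.span_singleton_mul_span_singleton]
    refine sup_le (sup_le (sup_le (sup_le (sup_le ?_ ?_) ?_) ?_) ?_) ?_ <;>
      rw [Ideal.span_singleton_le_iff_mem]
    · rw [mul_comm (g : 𝓞 K) α]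
      exact Ideal.mul_mem_mul mα ng
    · exact Ideal.mul_mem_mul mg nα'
    · exact Ideal.mul_mem_mul mg nγ'
    · rw [mul_comm (g : 𝓞 K) (Q.cj γ)]
      exact Ideal.mul_mem_mul mγ ng
    · exact Ideal.mul_mem_mul mg ng
    · have h2 : (g : 𝓞 K) * ((b : 𝓞 K) * (Λ : 𝓞 K) ^ 2) = Q.cj γ * γ := by
        rw [mul_comm (Q.cj γ) γ, nγ, hZ']
        ring
      rw [h2]
      exact Ideal.mul_mem_mul mγ nγ'

end

theorem hID (hHSU : HSU) (hARAM : ARAM_stmt) : HID := by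
  intro K _ _ Q f t α γ u v θ θ' hD0 hT hf hZ0 hΛ0 hE b g hb hg hZ hgf hbf
  obtain ⟨e1, e2, e3, e4, nα, nγ, yα, yγ, -, -, -, -⟩ := hE
  obtain ⟨Z, hZd⟩ : ∃ Z : ℤ, Z = t.2.2.2 := ⟨_, rfl⟩
  obtain ⟨Λ, hΛd⟩ : ∃ Λ : ℤ, Λ = lam t := ⟨_, rfl⟩
  rw [← hZd] at e2 e4 nα nγ hZ0 hZ
  rw [← hΛd] at e1 e3 nα nγ hΛ0
  have hM : ∀ M : Ideal (𝓞 K), α ∈ M → Q.cj α ∈ M → γ ∈ M → Q.cj γ ∈ M → (g : 𝓞 K) ∈ M →
      (b : 𝓞 K) * (Λ : 𝓞 K) ^ 2 ∈ M → M = ⊤ := by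
    intro M m1 m2 m3 m4 m5 m6
    exact HID_M Q hARAM f t.1.1 t.1.2 Z Λ α γ hT.co b g hg hZ hgf hbf nα nγ yα yγ M m1 m2 m3 m4 m5 m6
  obtain ⟨a, ha⟩ : ∃ a : Ideal (𝓞 K),
    a = Ideal.span {α} ⊔ Ideal.span {Q.cj γ} ⊔ Ideal.span {(g : 𝓞 K)} := ⟨_, rfl⟩
  have haa := HID_a Q Z Λ α γ v b g hZ e2 nα nγ hM a ha
  have mα : α ∈ a := by
    rw [ha]
    exact Ideal.mem_sup_left (Ideal.mem_sup_left (Ideal.mem_span_singleton_self _))
  have mγ : Q.cj γ ∈ a := by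
    rw [ha]
    exact Ideal.mem_sup_left (Ideal.mem_sup_right (Ideal.mem_span_singleton_self _))
  have mg : (g : 𝓞 K) ∈ a := by
    rw [ha]
    exact Ideal.mem_sup_right (Ideal.mem_span_singleton_self _)
  have hg0 : (g : 𝓞 K) ≠ 0 := by
    have : g ≠ 0 := by omega
    exact_mod_cast this
  have hb0 : (b : 𝓞 K) ≠ 0 := by
    have : b ≠ 0 := by omega
    exact_mod_cast this
  have ha0 : a ≠ ⊥ := by
    rintro rfl
    exact hg0 ((Submodule.mem_bot _).1 mg)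
  have hNa : Ideal.absNorm a = g := by
    have h1 := congrArg Ideal.absNorm haa
    rw [map_mul, Q.absNorm_bar, h96_norm_q Q g, ← pow_two] at h1
    exact (Nat.pow_left_inj (by norm_num)).1 h1
  have hprim : Prim a := by
    intro q hq hqa
    have hle := Ideal.dvd_iff_le.1 hqa
    have h1 : (q : 𝓞 K) ∣ α := Ideal.mem_span_singleton.1 (hle mα)
    have h2 : (q : 𝓞 K) ∣ Q.cj γ := Ideal.mem_span_singleton.1 (hle mγ)
    have h3 : (q : 𝓞 K) ∣ (g : 𝓞 K) := Ideal.mem_span_singleton.1 (hle mg)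
    have h4 : (q : ℤ) ∣ ((g : ℤ)) := by
      refine HID_dvdint Q q hq (g : ℤ) ?_
      rw [Int.cast_natCast]
      exact h3
    have h5 : q ∣ g := by exact_mod_cast h4
    have hqf : ¬ q ∣ f := by
      intro h
      have h9 : q ∣ Nat.gcd g f := Nat.dvd_gcd h5 h
      rw [hgf] at h9
      exact hq.one_lt.ne' (Nat.dvd_one.1 h9)
    have h6 : (q : 𝓞 K) ∣ γ := by
      obtain ⟨c, hc⟩ := h2
      refine ⟨Q.cj c, ?_⟩
      have h7 := congrArg Q.cj hc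
      rw [Q.cj_cj, map_mul, map_natCast] at h7
      exact h7
    exact HID_nk Q hT.co hq hqf α γ yα yγ h1 h6
  -- relations
  have hZ0' : (Z : 𝓞 K) ≠ 0 := by
    have : Z ≠ 0 := hZ0.ne'
    exact_mod_cast this
  have hΛ0' : (Λ : 𝓞 K) ≠ 0 := by
    have : Λ ≠ 0 := hΛ0.ne'
    exact_mod_cast this
  have e3' : Q.cj α ^ 2 * γ = (Λ : 𝓞 K) ^ 2 * Q.cj θ := by
    have h := congrArg Q.cj e3
    rw [map_mul, map_pow, Q.cj_cj, map_mul, map_pow, Q.cj_int] at h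
    exact h
  have e4' : Q.cj γ ^ 2 * Q.cj α = (Z : 𝓞 K) ^ 2 * Q.cj θ' := by
    have h := congrArg Q.cj e4
    rw [map_mul, map_pow, map_mul, map_pow, Q.cj_int] at h
    exact h
  have r1 : θ * Q.cj θ = (Z : 𝓞 K) ^ 5 := by
    have h1 : (Λ : 𝓞 K) ^ 4 * (θ * Q.cj θ) = (Λ : 𝓞 K) ^ 4 * (Z : 𝓞 K) ^ 5 := by
      calc (Λ : 𝓞 K) ^ 4 * (θ * Q.cj θ) = ((Λ : 𝓞 K) ^ 2 * θ) * ((Λ : 𝓞 K) ^ 2 * Q.cj θ) := by ring
        _ = (α ^ 2 * Q.cj γ) * (Q.cj α ^ 2 * γ) := by rw [← e3, ← e3']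
        _ = (α * Q.cj α) ^ 2 * (γ * Q.cj γ) := by ring
        _ = (Λ : 𝓞 K) ^ 4 * (Z : 𝓞 K) ^ 5 := by rw [nα, nγ]; ring
    exact mul_left_cancel₀ (pow_ne_zero 4 hΛ0') h1
  have r2 : α ^ 5 = θ ^ 2 * θ' := by
    have h1 : ((Λ : 𝓞 K) ^ 4 * (Z : 𝓞 K) ^ 2) * α ^ 5 = ((Λ : 𝓞 K) ^ 4 * (Z : 𝓞 K) ^ 2) * (θ ^ 2 * θ') := by
      calc ((Λ : 𝓞 K) ^ 4 * (Z : 𝓞 K) ^ 2) * α ^ 5
          = α ^ 5 * ((Z : 𝓞 K) * (Λ : 𝓞 K) ^ 2) ^ 2 := by ring
        _ = α ^ 5 * (γ * Q.cj γ) ^ 2 := by rw [nγ]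
        _ = (α ^ 2 * Q.cj γ) ^ 2 * (γ ^ 2 * α) := by ring
        _ = ((Λ : 𝓞 K) ^ 2 * θ) ^ 2 * ((Z : 𝓞 K) ^ 2 * θ') := by rw [e3, e4]
        _ = _ := by ring
    exact mul_left_cancel₀ (mul_ne_zero (pow_ne_zero 4 hΛ0') (pow_ne_zero 2 hZ0')) h1
  have r3 : Q.cj γ ^ 5 = θ * Q.cj θ' ^ 2 := by
    have h1 : ((Λ : 𝓞 K) ^ 2 * (Z : 𝓞 K) ^ 4) * Q.cj γ ^ 5 =
        ((Λ : 𝓞 K) ^ 2 * (Z : 𝓞 K) ^ 4) * (θ * Q.cj θ' ^ 2) := by
      calc ((Λ : 𝓞 K) ^ 2 * (Z : 𝓞 K) ^ 4) * Q.cj γ ^ 5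
          = Q.cj γ ^ 5 * ((Z : 𝓞 K) ^ 2 * Λ) ^ 2 := by ring
        _ = Q.cj γ ^ 5 * (α * Q.cj α) ^ 2 := by rw [nα]
        _ = (α ^ 2 * Q.cj γ) * (Q.cj γ ^ 2 * Q.cj α) ^ 2 := by ring
        _ = ((Λ : 𝓞 K) ^ 2 * θ) * ((Z : 𝓞 K) ^ 2 * Q.cj θ') ^ 2 := by rw [e3, e4']
        _ = _ := by ring
    exact mul_left_cancel₀ (mul_ne_zero (pow_ne_zero 2 hΛ0') (pow_ne_zero 4 hZ0')) h1
  have hZ' : (Z : 𝓞 K) = (b : 𝓞 K) * (g : 𝓞 K) := by
    rw [hZ]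
    push_cast
    ring
  have hθ0 : θ ≠ 0 := by
    rintro rfl
    rw [zero_mul] at r1
    exact pow_ne_zero 5 hZ0' r1.symm
  -- (b⁵) a⁵ ≤ (θ)
  have ha5 : a ^ 5 = Ideal.span {α ^ 5} ⊔ Ideal.span {Q.cj γ ^ 5} ⊔ Ideal.span {(g : 𝓞 K) ^ 5} := by
    rw [ha, hHSU (𝓞 K), hHSU (𝓞 K), Ideal.span_singleton_pow, Ideal.span_singleton_pow,
      Ideal.span_singleton_pow]
  have hle : Ideal.span {(b : 𝓞 K) ^ 5} * a ^ 5 ≤ Ideal.span {θ} := by
    rw [ha5, Ideal.mul_sup, Ideal.mul_sup]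
    simp only [Ideal.span_singleton_mul_span_singleton]
    refine sup_le (sup_le ?_ ?_) ?_ <;> rw [Ideal.span_singleton_le_iff_mem,
      Ideal.mem_span_singleton]
    · rw [r2]
      exact ⟨(b : 𝓞 K) ^ 5 * (θ * θ'), by ring⟩
    · rw [r3]
      exact ⟨(b : 𝓞 K) ^ 5 * Q.cj θ' ^ 2, by ring⟩
    · refine ⟨Q.cj θ, ?_⟩
      rw [r1, hZ']
      ring
  obtain ⟨B, hB⟩ := Ideal.dvd_iff_le.2 hle
  have hNθ : Ideal.absNorm (Ideal.span {θ}) = b ^ 5 * g ^ 5 := by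
    have h1 : θ * Q.cj θ = ((Z ^ 5 : ℤ) : 𝓞 K) := by
      rw [r1]
      push_cast
      rfl
    have h2 := Q.absNorm_eq θ (Z ^ 5) h1
    rw [abs_of_pos (pow_pos hZ0 5), hZ] at h2
    have h3 : (Ideal.absNorm (Ideal.span {θ}) : ℤ) = ((b ^ 5 * g ^ 5 : ℕ) : ℤ) := by
      rw [h2]
      push_cast
      ring
    exact_mod_cast h3
  have hNb : Ideal.absNorm (Ideal.span {(b : 𝓞 K) ^ 5}) = b ^ 10 := by
    have h1 : (b : 𝓞 K) ^ 5 = ((b ^ 5 : ℕ) : 𝓞 K) := by push_cast; rfl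
    rw [h1, h96_norm_q Q (b ^ 5)]
    ring
  have hbpos : 0 < b := by omega
  have hgpos : 0 < g := by omega
  have hNB : Ideal.absNorm B = b ^ 5 := by
    have h1 := congrArg Ideal.absNorm hB
    rw [map_mul, map_mul, map_pow, hNb, hNa, hNθ] at h1
    have h2 : (b ^ 5 * g ^ 5) * Ideal.absNorm B = (b ^ 5 * g ^ 5) * b ^ 5 := by
      rw [← h1]
      ring
    exact Nat.eq_of_mul_eq_mul_left (by positivity) h2
  have hbg : IsCoprime ((b : ℤ) ^ 5) (g : ℤ) := by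
    refine IsCoprime.pow_left ?_
    rw [Nat.isCoprime_iff_coprime]
    refine Nat.Coprime.symm (Nat.Coprime.symm ?_)
    refine Nat.coprime_of_dvd ?_
    intro p hp hpb hpg
    have h9 : p ∣ Nat.gcd g f := Nat.dvd_gcd hpg (hbf p hp hpb)
    rw [hgf] at h9
    exact hp.one_lt.ne' (Nat.dvd_one.1 h9)
  have hBa : IsCoprime B a := by
    rw [Ideal.isCoprime_iff_sup_eq, Ideal.eq_top_iff_one]
    obtain ⟨x, y, hxy⟩ := hbg
    have h3 : (1 : 𝓞 K) = (x : 𝓞 K) * ((b ^ 5 : ℕ) : 𝓞 K) + (y : 𝓞 K) * (g : 𝓞 K) := by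
      have h4 := congrArg (fun z : ℤ => (z : 𝓞 K)) hxy
      simp only [Int.cast_add, Int.cast_mul, Int.cast_pow, Int.cast_natCast, Int.cast_one] at h4
      rw [← h4]
      push_cast
      ring
    rw [h3]
    refine Ideal.add_mem _ (Ideal.mem_sup_left ?_) (Ideal.mem_sup_right (a.mul_mem_left _ mg))
    refine B.mul_mem_left _ ?_
    rw [← hNB]
    exact Ideal.absNorm_mem B
  have hBa5 : IsCoprime B (a ^ 5) := hBa.pow_right
  have hBd : B ∣ Ideal.span {(b : 𝓞 K) ^ 5} := by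
    refine hBa5.dvd_of_dvd_mul_right ?_
    rw [hB]
    exact dvd_mul_left _ _
  obtain ⟨A, hA⟩ := hBd
  have hB0 : B ≠ ⊥ := by
    rintro rfl
    rw [Ideal.absNorm_bot] at hNB
    exact absurd hNB.symm (pow_pos hbpos 5).ne'
  refine ⟨a, A, ha0, hprim, hNa, ?_, ?_⟩
  · have h1 := congrArg Ideal.absNorm hA
    rw [map_mul, hNb, hNB] at h1
    have h2 : b ^ 5 * Ideal.absNorm A = b ^ 5 * b ^ 5 := by
      rw [← h1]
      ring
    exact Nat.eq_of_mul_eq_mul_left (by positivity) h2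
  · have h1 : B * Ideal.span {θ} = B * (a ^ 5 * A) := by
      calc B * Ideal.span {θ} = Ideal.span {θ} * B := mul_comm _ _
        _ = Ideal.span {(b : 𝓞 K) ^ 5} * a ^ 5 := hB.symm
        _ = B * A * a ^ 5 := by rw [hA]
        _ = B * (a ^ 5 * A) := by ring
    exact mul_left_cancel₀ hB0 h1

end Pool.Agent.helper26.T5
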