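import Pool.Agent.helper26.T5.SpecH

/-! Row t5:HSU (MP_16912e_nt): powers of a sum of ideals -/

set_option autoImplicit false

namespace Pool.Agent.helper26.T5

open Finset NumberField Pool.Agent.helper3.FT Pool.Agent.helper47.RA Pool.Agent.T5

theorem hSU : HSU := by
  intro R _ _ I J n
  by_cases hG : I ⊔ J = ⊥
  · have hI : I = ⊥ := le_bot_iff.1 (hG ▸ le_sup_left)
    have hJ : J = ⊥ := le_bot_iff.1 (hG ▸ le_sup_right)
    rw [hI, hJ, sup_idem, sup_idem]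
  · obtain ⟨G, hGd⟩ : ∃ G : Ideal R, G = I ⊔ J := ⟨_, rfl⟩
    have hI : G ∣ I := Ideal.dvd_iff_le.2 (hGd ▸ le_sup_left)
    have hJ : G ∣ J := Ideal.dvd_iff_le.2 (hGd ▸ le_sup_right)
    have hG0 : G ≠ ⊥ := hGd ▸ hG
    obtain ⟨I', hI'⟩ := hI
    obtain ⟨J', hJ'⟩ := hJ
    have h1 : G * (I' ⊔ J') = G * ⊤ := by
      rw [Ideal.mul_sup, ← hI', ← hJ', ← hGd, Ideal.mul_top]
    have h2 : I' ⊔ J' = ⊤ := mul_left_cancel₀ hG0 h1
    have h3 : IsCoprime I' J' := Ideal.isCoprime_iff_sup_eq.2 h2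
    have h4 : I' ^ n ⊔ J' ^ n = ⊤ := Ideal.isCoprime_iff_sup_eq.1 h3.pow
    rw [← hGd, hI', hJ', mul_pow, mul_pow, ← Ideal.mul_sup, h4, Ideal.mul_top]

end Pool.Agent.helper26.T5
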