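import Pool.Agent.helper26.T5.SpecB

/-! Row t5:LF1 (MP_16912e_nt): the weighted number of points, interface form -/

set_option autoImplicit false

namespace Pool.Agent.helper26.T5

open NumberField Pool.Agent.helper3.FT Pool.Agent.helper47.RA Pool.Agent.T5 Filter

theorem LF1_rho (d N s W : ℝ) (hd : 0 < d) (hN : 1 ≤ N) (hs : 0 < s) (hs2 : s ≤ √N) (hW : 0 ≤ W) :
    2 * W * s / √(N ^ (1 / 2 - d / 2) * (N ^ d * s)) ≤ 2 * W * N ^ (-(d / 4)) := by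
  have hN0 : 0 < N := by linarith
  have h1 : N ^ (1 / 2 - d / 2) * (N ^ d * s) = N ^ (1 / 2 + d / 2) * s := by
    rw [← mul_assoc, ← Real.rpow_add hN0]
    congr 2
    ring
  have h2 : √(N ^ (1 / 2 + d / 2) * s) = N ^ (1 / 4 + d / 4) * √s := by
    rw [Real.sqrt_mul (by positivity), Real.sqrt_eq_rpow, ← Real.rpow_mul hN0.le]
    congr 2
    ring
  have h3 : √s ≤ N ^ (1 / 4 : ℝ) := by
    calc √s ≤ √(√N) := Real.sqrt_le_sqrt hs2
      _ = N ^ (1 / 4 : ℝ) := by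
        rw [Real.sqrt_eq_rpow, Real.sqrt_eq_rpow, ← Real.rpow_mul hN0.le]
        norm_num
  have hss : 0 < √s := Real.sqrt_pos.2 hs
  have hsq : √s * √s = s := Real.mul_self_sqrt hs.le
  rw [h1, h2]
  have h4 : 0 < N ^ (1 / 4 + d / 4) := by positivity
  rw [div_le_iff₀ (by positivity)]
  have h5 : N ^ (-(d / 4)) * N ^ (1 / 4 + d / 4) = N ^ (1 / 4 : ℝ) := by
    rw [← Real.rpow_add hN0]
    congr 1
    ring
  calc 2 * W * s = 2 * W * (√s * √s) := by rw [hsq]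
    _ ≤ 2 * W * (N ^ (1 / 4 : ℝ) * √s) := by gcongr
    _ = 2 * W * N ^ (-(d / 4)) * (N ^ (1 / 4 + d / 4) * √s) := by rw [← h5]; ring

theorem lF1 (hL1 : L1) : LF1 := by
  intro d hd w ε hε
  have h1 : Tendsto (fun N : ℝ => 36 * (WW w : ℝ) * N ^ (-(d / 4))) atTop (nhds 0) := by
    have := (tendsto_rpow_neg_atTop (y := d / 4) (by positivity)).const_mul (36 * (WW w : ℝ))
    rwa [mul_zero] at this
  have h2 : ∀ᶠ N : ℝ in atTop, 36 * (WW w : ℝ) * N ^ (-(d / 4)) < min ε 1 :=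
    (tendsto_order.1 h1).2 _ (lt_min hε one_pos)
  obtain ⟨N₁, hN₁⟩ := eventually_atTop.1 h2
  refine ⟨max N₁ 1, ?_⟩
  intro K _ _ Q N Y a _ hN hD1 hD2 haI haE F hF
  have hN1 : N₁ ≤ N := (le_max_left _ _).trans hN
  have hN2 : 1 ≤ N := (le_max_right _ _).trans hN
  have hN0 : 0 < N := by linarith
  have hsm := hN₁ N hN1
  have hDr : 0 < -(Q.D : ℝ) := by linarith
  have hD0 : Q.D < 0 := by
    have : (Q.D : ℝ) < 0 := by linarith
    exact_mod_cast this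
  have habs : |(Q.D : ℝ)| = -(Q.D : ℝ) := abs_of_neg (by linarith)
  obtain ⟨s, hs⟩ : ∃ s, s = √(-(Q.D : ℝ)) := ⟨_, rfl⟩
  have hs0 : 0 < s := by rw [hs]; exact Real.sqrt_pos.2 hDr
  have hsN : s ≤ √N := by rw [hs]; exact Real.sqrt_le_sqrt hD2
  obtain ⟨ℓ, hℓ⟩ : ∃ ℓ, ℓ = N ^ (1 / 2 - d / 2) := ⟨_, rfl⟩
  have hℓ0 : 0 < ℓ := by rw [hℓ]; positivity
  obtain ⟨T, hT⟩ : ∃ T, T = N ^ d * s := ⟨_, rfl⟩
  have hT0 : 0 < T := by rw [hT]; positivity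
  have hNE : NE Q a ℓ := by
    intro α hα hα0
    by_contra hc
    push Not at hc
    apply haE
    refine ⟨haI, α, hα, hα0, ?_⟩
    rw [← hℓ]
    exact hc
  obtain ⟨ρ, hρ⟩ : ∃ ρ, ρ = 2 * WW w * √|(Q.D : ℝ)| / √(ℓ * T) := ⟨_, rfl⟩
  have hρ1 : ρ ≤ 2 * WW w * N ^ (-(d / 4)) := by
    rw [hρ, habs, ← hs, hℓ, hT]
    exact LF1_rho d N s (WW w) hd hN2 hs0 hsN (Nat.cast_nonneg _)
  have hρ2 : 18 * ρ ≤ ε := by
    have := min_le_left ε 1
    linarith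
  have hρ3 : ρ ≤ 1 := by
    have := min_le_right ε 1
    have h3 : 0 ≤ (WW w : ℝ) * N ^ (-(d / 4)) := by positivity
    nlinarith
  obtain ⟨P, hP, hb⟩ := hL1 K Q a w ℓ T ρ hD0 haI.2.1 haI.1 hℓ0 hT0 hNE hρ hρ3
  have hPF : P = F := by
    ext α
    rw [hP α, hF α, hT, hs]
  rw [← hPF]
  have hTs : T / √|(Q.D : ℝ)| = N ^ d := by
    rw [habs, ← hs, hT]
    field_simp
  rw [hTs] at hb
  refine hb.trans ?_
  have h4 : 0 ≤ N ^ d := by positivity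
  exact mul_le_mul_of_nonneg_right hρ2 h4

end Pool.Agent.helper26.T5
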